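import Pool.Agent.V11288.LZ.Part

/-!
# Stark's numbers for ray classes of a real quadratic field as limits of sums over primes

Let `K` be a real quadratic field, `𝔪 ≠ 𝓞_K` a nonzero ideal, `G = Cl_{𝔪∞₂}` the ray class group and
`ζ(s, A)`, `A ∈ G`, the partial zeta functions.  Stark's conjecture says that the real numbers

`ε_A = exp(-2 ζ'(0, A))`

are units of the ray class field, conjugate to each other over `K` by Artin's reciprocity law (and with a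
condition on the absolute values at `∞₂`).  Here `ζ'(0, A)` is defined by analytic continuation.  We show
that the numbers `ε_A` are limits of explicit sums over the prime ideals and their classes.

Let `γ > π/2`, and for a character `χ` of `G` and `X > 1`, with `u = k log N𝔭 / log X`,

`W_χ(X) = ∑_{𝔭 ∤ 𝔪} ∑_{k ≥ 1} χ(𝔭)^k / k · e^{iγu} / Γ(1 + u)`,
`E_A(X) = |G|⁻¹ ∑_χ χ(A)⁻¹ exp W_χ(X)`,

and `Λ_γ = ∫_0^∞ (e^{-t} - e^{iγt}/Γ(1+t)) dt/t`.  For positive real numbers `ε_A`, `A ∈ G`: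

1. `ε_A = exp(-2 ζ'(0, A))` (and `ζ(0, A) = 0`) for all `A` if and only if
   `(log X) E_A(X) → -e^{Λ_γ} (log ε_A)/2` for `X → ∞`, for all `A`;

2. in this case `exp(-2 e^{-Λ_γ} (log X) E_A(X)) = ε_A + O(1/log X)`.

(`ζ(0, A) = 0` always holds here, since `∞₁` splits completely in the ray class field.)  So condition 1 of Q1 is
an explicit statement on the distribution of the prime ideals in the ray classes.  No hypothesis on the zeros of
the `L`-functions is used, in particular none on real zeros.  Of the analytic continuation only the meromorphic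
continuation of the `ζ(s, A)` to the points of the real interval `[0, 1]` is used.

The proof works for all number fields and all multiplicative maps from the ideals prime to `𝔪` to a finite
abelian group; for each `χ` the law for rotated Mittag-Leffler sums (`Pool.Agent.V11288.LZ`, extending
`Pool.Agent.V11290.UL`) is applied to `∑_A χ(A) ζ(s, A)`, whatever the order of vanishing at `s = 0` is.
-/

set_option autoImplicit false

namespace Pool.Agent.Results.MP_343f43_nt.StarkNumbersByPrimes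

open Filter Topology Set NumberField IsDedekindDomain

variable {K : Type} [Field K] [NumberField K] {G : Type} [CommGroup G]

/-- `𝔞` is nonzero and prime to `𝔪`. -/
def Prime𝔪 (𝔪 𝔞 : Ideal (𝓞 K)) : Prop :=
  𝔞 ≠ 0 ∧ ∀ v : HeightOneSpectrum (𝓞 K), v.asIdeal ∣ 𝔪 → ¬ v.asIdeal ∣ 𝔞

/-- `G` is the ray class group of modulus `𝔪∞₂`, `∞₂` the real embedding `σ`, and `cls 𝔞` the class of
`𝔞`: it is multiplicative, surjective, and `cls 𝔞 = cls 𝔟` iff `α𝔞 = β𝔟` for some `α, β ∈ 𝓞_K` prime to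
`𝔪` with `α ≡ β` modulo `𝔪` and `σ(α)σ(β) > 0`. -/
structure IsRayClass (𝔪 : Ideal (𝓞 K)) (σ : K →+* ℝ) (cls : Ideal (𝓞 K) → G) : Prop where
  mul : ∀ 𝔞 𝔟, Prime𝔪 𝔪 𝔞 → Prime𝔪 𝔪 𝔟 → cls (𝔞 * 𝔟) = cls 𝔞 * cls 𝔟
  surj : ∀ A : G, ∃ 𝔞, Prime𝔪 𝔪 𝔞 ∧ cls 𝔞 = A
  eq_iff : ∀ 𝔞 𝔟, Prime𝔪 𝔪 𝔞 → Prime𝔪 𝔪 𝔟 → (cls 𝔞 = cls 𝔟 ↔
    ∃ α β : 𝓞 K, Prime𝔪 𝔪 (Ideal.span {α}) ∧ Prime𝔪 𝔪 (Ideal.span {β}) ∧ α - β ∈ 𝔪 ∧
      0 < σ α * σ β ∧ Ideal.span {α} * 𝔞 = Ideal.span {β} * 𝔟)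

/-- `Z(s) = ζ(s, A)`: it is the sum of `N𝔞^{-s}` over the integral ideals `𝔞 ∈ A` for `Re s > 1`, and is
meromorphic at the points of the real interval `[0, 1]`. -/
structure IsPartialZeta (𝔪 : Ideal (𝓞 K)) (cls : Ideal (𝓞 K) → G) (A : G) (Z : ℂ → ℂ) : Prop where
  mero : ∀ x ∈ Icc (0 : ℝ) 1, MeromorphicAt Z (x : ℂ)
  sum : ∀ s : ℂ, 1 < s.re → Z s =
    ∑' 𝔞 : {𝔞 : Ideal (𝓞 K) // Prime𝔪 𝔪 𝔞 ∧ cls 𝔞 = A}, ((Ideal.absNorm 𝔞.1 : ℕ) : ℂ) ^ (-s)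

/-- The weight `e^{iγu} / Γ(1 + u)`. -/
noncomputable def weight (γ u : ℝ) : ℂ :=
  Complex.exp ((γ * u : ℝ) * Complex.I) / (Real.Gamma (1 + u) : ℂ)

/-- The term of `W_χ(X)` at `(𝔭, k)`. -/
noncomputable def term (cls : Ideal (𝓞 K) → G) (χ : G →* ℂˣ) (γ X : ℝ)
    (v : HeightOneSpectrum (𝓞 K)) (k : ℕ) : ℂ :=
  ((χ (cls v.asIdeal) : ℂˣ) : ℂ) ^ k / k *
    weight γ (k * Real.log (Ideal.absNorm v.asIdeal) / Real.log X)

/-- `W_χ(X)`, the sum over the primes not dividing `𝔪` and `k ≥ 1` (here `k = x.2 + 1`). -/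
noncomputable def W (𝔪 : Ideal (𝓞 K)) (cls : Ideal (𝓞 K) → G) (χ : G →* ℂˣ) (γ X : ℝ) : ℂ :=
  ∑' x : {v : HeightOneSpectrum (𝓞 K) // ¬ v.asIdeal ∣ 𝔪} × ℕ, term cls χ γ X x.1.1 (x.2 + 1)

/-- `E_A(X) = |G|⁻¹ ∑_χ χ(A⁻¹) exp W_χ(X)`. -/
noncomputable def E (𝔪 : Ideal (𝓞 K)) (cls : Ideal (𝓞 K) → G) (γ X : ℝ) (A : G) : ℂ :=
  (∑ᶠ χ : G →* ℂˣ, ((χ A⁻¹ : ℂˣ) : ℂ) * Complex.exp (W 𝔪 cls χ γ X)) / Nat.card G

/-- `Λ_γ = ∫_0^∞ (e^{-t} - e^{iγt} / Γ(1 + t)) dt / t`. -/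
noncomputable def Lam (γ : ℝ) : ℂ := ∫ t in Ioi (0 : ℝ),
  (Complex.exp (-(t : ℂ)) - Complex.exp ((γ * t : ℝ) * Complex.I) * ((Real.Gamma (1 + t))⁻¹ : ℝ)) / t

/-- `Z(0) = 0` and `Z'(0) = z`: `Z(s)/s → z` for `s → 0`. -/
def HasDerivZero (Z : ℂ → ℂ) (z : ℂ) : Prop := Tendsto (fun s : ℂ => Z s / s) (𝓝[≠] 0) (𝓝 z)

open Pool.Agent.V11288.LZ

theorem term_eq (cls : Ideal (𝓞 K) → G) (χ : G →* ℂˣ) (γ X : ℝ) (v : HeightOneSpectrum (𝓞 K))
    (k : ℕ) : cterm cls 0 χ γ X v k = term cls χ γ X v k := by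
  unfold cterm term weight wt
  rw [Real.rpow_zero, Complex.ofReal_one, one_pow, mul_one]

theorem W_eq (𝔪 : Ideal (𝓞 K)) (cls : Ideal (𝓞 K) → G) (χ : G →* ℂˣ) (γ X : ℝ) :
    cW {v | v.asIdeal ∣ 𝔪} cls 0 χ γ X = W 𝔪 cls χ γ X :=
  tsum_congr fun x => term_eq cls χ γ X x.1.1 (x.2 + 1)

theorem E_eq [Finite G] (𝔪 : Ideal (𝓞 K)) (cls : Ideal (𝓞 K) → G) (γ X : ℝ) (A : G) :
    dftinv (fun χ => Complex.exp (cW {v | v.asIdeal ∣ 𝔪} cls 0 χ γ X)) A = E 𝔪 cls γ X A := by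
  unfold dftinv E
  simp only [W_eq]

theorem lim_eq (Z : ℂ → ℂ) (z : ℂ) : HasDerivZero Z z ↔
    Tendsto (fun s : ℂ => Z s / (s - (0 : ℝ)) ^ (1 : ℤ)) (𝓝[≠] ((0 : ℝ) : ℂ)) (𝓝 z) := by
  unfold HasDerivZero
  simp

/-- **Stark's numbers as limits of sums over primes.** -/
theorem result (_ : Module.finrank ℚ K = 2) (𝔪 : Ideal (𝓞 K)) (_ : 𝔪 ≠ ⊥) (_ : 𝔪 ≠ ⊤)
    (σ : K →+* ℝ) [Finite G] (cls : Ideal (𝓞 K) → G) (hc : IsRayClass 𝔪 σ cls) (Z : G → ℂ → ℂ)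
    (hZ : ∀ A, IsPartialZeta 𝔪 cls A (Z A)) (γ : ℝ) (hγ : Real.pi / 2 < γ) (ε : G → ℝ)
    (hε : ∀ A, 0 < ε A) :
    ((∀ A, ∃ z : ℝ, HasDerivZero (Z A) z ∧ ε A = Real.exp (-2 * z)) ↔
      ∀ A, Tendsto (fun X : ℝ => Real.log X * E 𝔪 cls γ X A) atTop
        (𝓝 (-(Complex.exp (Lam γ) * (Real.log (ε A) / 2))))) ∧
    ((∀ A, ∃ z : ℝ, HasDerivZero (Z A) z ∧ ε A = Real.exp (-2 * z)) →
      ∀ A, (fun X : ℝ => Complex.exp (-2 * Complex.exp (-Lam γ) * (Real.log X * E 𝔪 cls γ X A)) -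
        ε A) =O[atTop] (fun X : ℝ => 1 / Real.log X)) := by
  set z : G → ℂ := fun A => -((Real.log (ε A) / 2 : ℝ) : ℂ) with hz
  have h0 : (∀ A, ∃ z : ℝ, HasDerivZero (Z A) z ∧ ε A = Real.exp (-2 * z)) ↔
      ∀ A, Tendsto (fun s : ℂ => Z A s / (s - (0 : ℝ)) ^ (1 : ℤ)) (𝓝[≠] ((0 : ℝ) : ℂ)) (𝓝 (z A)) := by
    refine forall_congr' fun A => ?_
    constructor
    · rintro ⟨y, hy, hy2⟩
      rw [← lim_eq]
      have h1 : z A = (y : ℂ) := by
        rw [hz]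
        simp only
        rw [hy2, Real.log_exp]
        push_cast
        ring
      rw [h1]
      exact hy
    · intro h
      refine ⟨-(Real.log (ε A) / 2), ?_, ?_⟩
      · rw [lim_eq]
        push_cast
        have h1 : z A = -((Real.log (ε A) : ℂ) / 2) := by
          rw [hz]
          push_cast
          rfl
        rw [← h1]
        exact_mod_cast h
      · rw [show -2 * -(Real.log (ε A) / 2) = Real.log (ε A) by ring, Real.exp_log (hε A)]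
  obtain ⟨h1, h2⟩ := partial_main (S := {v | v.asIdeal ∣ 𝔪}) (cls := cls) (ζ := Z)
    (fun 𝔞 𝔟 h h' => hc.mul 𝔞 𝔟 h h') 0 (fun g x hx => (hZ g).mero x hx)
    (fun g s hs => (hZ g).sum s hs) hγ 1 z
  simp only [E_eq, zpow_one, Int.cast_one, one_mul] at h1 h2
  have hlim : ∀ A, Complex.exp (Pool.Agent.W187.UR.Lam γ) * z A =
      -(Complex.exp (Lam γ) * (Real.log (ε A) / 2)) := by
    intro A
    rw [hz]
    push_cast
    show Complex.exp (Lam γ) * -(Real.log (ε A) / 2) = _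
    ring
  simp only [hlim] at h1 h2
  simp only [zpow_one] at h0
  refine ⟨h0.trans h1, fun h A => ?_⟩
  have h3 := h2 (h0.1 h) A
  obtain ⟨C, hC⟩ := h3.bound
  have h4 : ∀ X : ℝ, Complex.exp (-2 * Complex.exp (-Lam γ) * (Real.log X * E 𝔪 cls γ X A)) - ε A =
      ε A * (Complex.exp (-2 * Complex.exp (-Lam γ) * (Real.log X * E 𝔪 cls γ X A -
        -(Complex.exp (Lam γ) * (Real.log (ε A) / 2)))) - 1) := by
    intro X
    have h5 : (ε A : ℂ) = Complex.exp (Real.log (ε A)) := by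
      rw [← Complex.ofReal_exp, Real.exp_log (hε A)]
    rw [h5, mul_sub, mul_one, ← Complex.exp_add]
    congr 2
    have h6 : Complex.exp (-Lam γ) * Complex.exp (Lam γ) = 1 := by
      rw [← Complex.exp_add, neg_add_cancel, Complex.exp_zero]
    linear_combination ((Real.log (ε A) : ℂ)) * h6
  refine Asymptotics.IsBigO.congr_left ?_ fun X => (h4 X).symm
  refine Asymptotics.IsBigO.const_mul_left ?_ _
  have h5 : Tendsto (fun X : ℝ => -2 * Complex.exp (-Lam γ) * (Real.log X * E 𝔪 cls γ X A -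
      -(Complex.exp (Lam γ) * (Real.log (ε A) / 2)))) atTop (𝓝 0) := by
    have h6 := (h3.trans_tendsto (tendsto_const_nhds.div_atTop Real.tendsto_log_atTop)).const_mul
      (-2 * Complex.exp (-Lam γ))
    rw [mul_zero] at h6
    exact h6
  refine Asymptotics.IsBigO.trans (g := fun X : ℝ => -2 * Complex.exp (-Lam γ) *
    (Real.log X * E 𝔪 cls γ X A - -(Complex.exp (Lam γ) * (Real.log (ε A) / 2)))) ?_
    (h3.const_mul_left _)
  refine Asymptotics.IsBigO.of_bound 2 ?_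
  filter_upwards [h5.norm.eventually (eventually_le_nhds (b := (1 : ℝ)) (by simp))] with X hX
  exact Complex.norm_exp_sub_one_le hX

end Pool.Agent.Results.MP_343f43_nt.StarkNumbersByPrimes
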